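import Mathlib

set_option autoImplicit false

namespace Pool.Agent.Results.MP_c51eea_al.No

open DihedralGroup

/-- `G` is the unit group of a finite ring. -/
def Realizable (G : Type) [Group G] : Prop :=
  ∃ (R : Type) (_ : Ring R) (_ : Finite R), Nonempty (Rˣ ≃* G)

theorem idem (R : Type) [Ring R] [Finite R] :
    ∃ (e c : ℤ) (k : ℕ), ∀ r : R, (e * e - e) • r = 0 ∧ (3 * c * e - e) • r = 0 ∧
      (3 ^ k * (1 - e)) • r = 0 := by
  obtain ⟨k, m, hm, h⟩ :=
    Nat.exists_eq_pow_mul_and_not_dvd (addOrderOf_pos (1 : R)).ne' 3 (by decide)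
  have h0 : ∀ (z : ℤ) (r : R), (z * (3 ^ k * m) : ℤ) • r = 0 := fun z r => by
    have := addOrderOf_nsmul_eq_zero (1 : R)
    rw [h, nsmul_one] at this
    rw [mul_smul, show ((3 ^ k * m : ℤ)) = ((3 ^ k * m : ℕ) : ℤ) by push_cast; rfl, natCast_zsmul,
      nsmul_eq_mul, this, zero_mul, smul_zero]
  have h3 : IsCoprime (3 : ℤ) m := by
    simpa using Nat.isCoprime_iff_coprime.2 ((Nat.Prime.coprime_iff_not_dvd Nat.prime_three).2 hm)
  obtain ⟨s, t, hst⟩ := h3.pow_left (m := k)
  obtain ⟨c, d, hcd⟩ := h3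
  refine ⟨s * 3 ^ k, c, k, fun r => ⟨?_, ?_, ?_⟩⟩
  · rw [← h0 (-s * t) r]
    congr 1
    linear_combination s * 3 ^ k * hst
  · rw [← h0 (-s * d) r]
    congr 1
    linear_combination s * 3 ^ k * hcd
  · rw [← h0 t r]
    congr 1
    linear_combination (-3 ^ k) * hst

theorem core (R : Type) [Ring R] [Finite R] (h2 : IsPGroup 2 Rˣ) (x y : Rˣ) (h8 : x ^ 8 = 1)
    (hy : y * y = 1) (hxy : y * x * y * x = 1)
    (hn : ∀ u : Rˣ, u * x = x * u ∨ x * u * x = u) : x ^ 4 = 1 := by
  obtain ⟨e, c, k, h1⟩ := idem R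
  obtain ⟨X, hX⟩ : ∃ X : R, X = x := ⟨_, rfl⟩
  obtain ⟨Y, hY⟩ : ∃ Y : R, Y = y := ⟨_, rfl⟩
  obtain ⟨Z, hZ⟩ : ∃ Z : R, Z = ↑x⁻¹ := ⟨_, rfl⟩
  have a1 : X * Z = 1 := by simp [hX, hZ]
  have a2 : Z * X = 1 := by simp [hX, hZ]
  have a3 : Y * Y = 1 := by simpa [hY] using congrArg Units.val hy
  have a4 : Y * X * Y * X = 1 := by simpa [hX, hY] using congrArg Units.val hxy
  have a5 : X ^ 8 = 1 := by simpa [hX] using congrArg Units.val h8
  have a6 : X * Y * X = Y := by
    calc X * Y * X = Y * Y * X * Y * X := by rw [a3, one_mul]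
      _ = Y * (Y * X * Y * X) := by noncomm_ring
      _ = _ := by rw [a4, mul_one]
  have a7 : Y * Z = X * Y := by
    calc Y * Z = X * Y * X * Z := by rw [a6]
      _ = _ := by rw [mul_assoc, a1, mul_one]
  have hu : ∀ a b : R, a * b = (3 : ℤ) • 1 → (1 - e • 1 + e • a) * X = X * (1 - e • 1 + e • a) ∨
      X * (1 - e • 1 + e • a) * X = 1 - e • 1 + e • a := fun a b hab => by
    have : (1 - e • 1 + e • a) * (1 - e • 1 + (c * e) • b) = 1 := by
      simp only [mul_add, add_mul, mul_sub, sub_mul, smul_mul_assoc, mul_smul_comm, mul_one,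
        one_mul, hab]
      linear_combination (norm := module) (2 : ℤ) • (h1 1).1 - (h1 a).1 - c • (h1 b).1 +
        e • (h1 1).2.1
    obtain ⟨u, hu⟩ := IsUnit.of_mul_eq_one _ this
    simpa only [← hu, hX, Units.ext_iff, Units.val_mul] using hn u
  have hnil : ∀ n : R, n * n = 0 → (1 - e) • n = 0 := fun n hn => by
    have h3 : ∀ i j : ℤ, (1 + (i * (1 - e)) • n) * (1 + (j * (1 - e)) • n) =
        1 + ((i + j) * (1 - e)) • n := fun i j => by
      simp only [mul_add, add_mul, smul_mul_assoc, mul_smul_comm, mul_one, one_mul, hn]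
      module
    let u : Rˣ := ⟨_, _, by simpa using h3 1 (-1), by simpa using h3 (-1) 1⟩
    have h4 : ∀ j : ℕ, ((u ^ j : Rˣ) : R) = 1 + (j * (1 - e)) • n := fun j => by
      induction j with
      | zero => simp
      | succ j ih => rw [pow_succ, Units.val_mul, ih]; simpa [u] using h3 j 1
    have h5 : u ^ 3 ^ k = 1 := Units.ext (by rw [h4]; simpa using (h1 n).2.2)
    obtain ⟨j, hj⟩ := h2 u
    have h6 : u = 1 := by
      simpa [Nat.Coprime.gcd_eq_one (Nat.Coprime.pow j k (by decide : Nat.Coprime 2 3))] using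
        pow_gcd_eq_one.2 ⟨hj, h5⟩
    simpa [h6] using (h4 1).symm
  have b1 : (1 - e) • (Y * X - X * Y) = 0 := by
    have p1 := hnil ((1 + Y) * X * (1 - Y)) (by
      calc _ = (1 + Y) * X * (1 - Y * Y) * X * (1 - Y) := by noncomm_ring
        _ = 0 := by simp [a3])
    have p2 := hnil ((1 - Y) * X * (1 + Y)) (by
      calc _ = (1 - Y) * X * (1 - Y * Y) * X * (1 + Y) := by noncomm_ring
        _ = 0 := by simp [a3])
    obtain ⟨i, j, hij⟩ : IsCoprime (2 : ℤ) (3 ^ k) :=
      IsCoprime.pow_right ⟨-1, 1, by norm_num⟩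
    simp only [mul_add, add_mul, mul_sub, sub_mul, mul_one, one_mul] at p1 p2
    linear_combination (norm := module) i • p1 - i • p2 + j • (h1 (Y * X - X * Y)).2.2 -
      hij • (1 - e) • (Y * X - X * Y)
  have key : ∀ t : ℤ, t • (Y * X - X * Y) = 0 → t • (X * X - 1) = 0 := fun t ht => by
    have : X * X - 1 = -(X * (Y * X - X * Y) * Y) := by
      rw [mul_sub, sub_mul, ← mul_assoc X Y, a6, a3, mul_assoc, mul_assoc, a3]; noncomm_ring
    rw [this, smul_neg, ← smul_mul_assoc, ← mul_smul_comm, ht]; simp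
  have b2 := key _ b1
  have fin : X * X - 1 = 0 → x ^ 4 = 1 := fun h => Units.ext (by
    rw [Units.val_pow_eq_pow_val, ← hX, show X ^ 4 = X * X * (X * X) by noncomm_ring,
      sub_eq_zero.1 h]; simp)
  have c1 := hu (1 + X + Y) ((1 + Z - Y) * X * (1 - (X ^ 6 - X ^ 5 + X ^ 3 - X ^ 2 + 1) * (X - 1)))
    (by
      have : (1 + X + Y) * (1 + Z - Y) * X = 1 + X + X * X := by
        simp only [mul_add, add_mul, mul_sub, sub_mul, mul_one, one_mul, a1, a2, a3, a7]
        abel
      rw [← mul_assoc, ← mul_assoc, this]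
      calc _ = (3 : ℤ) • 1 + (1 - X ^ 8) * (X - 1) := by noncomm_ring
        _ = _ := by simp [a5])
  have c2 := hu (X + 2 • Y) (2 • Y - Z) (by
    simp only [add_mul, mul_sub, smul_mul_assoc, mul_smul_comm, a1, a3, a7]
    module)
  simp only [mul_add, add_mul, mul_sub, sub_mul, smul_mul_assoc, mul_smul_comm, mul_one, one_mul,
    smul_add, a6] at c1 c2
  rcases c1 with c1 | c1
  · exact fin (by simpa using key 1 (by linear_combination (norm := module) c1 + b1))
  rcases c2 with c2 | c2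
  · have d1 := key (2 * e) (by linear_combination (norm := module) c2)
    have d2 : e • (X * X * X + X * X - X - 1) = 0 := by
      linear_combination (norm := module) c1 - b2
    have d3 := congrArg (X * ·) d2
    have d4 := congrArg (X * X * ·) b2
    simp only [mul_add, mul_sub, mul_smul_comm, mul_one, mul_zero, mul_assoc] at d1 d2 d3 d4 b2
    refine Units.ext ?_
    rw [Units.val_pow_eq_pow_val, ← hX, show X ^ 4 = X * (X * (X * X)) by noncomm_ring,
      Units.val_one]
    linear_combination (norm := module) d3 - d2 + d1 + d4 + b2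
  · have d2 : e • (X * X * X - X) = 0 := by linear_combination (norm := module) c2 - b2
    have d3 := congrArg (Z * ·) d2
    simp only [mul_sub, mul_smul_comm, ← mul_assoc, a2, one_mul, mul_zero] at d3
    exact fin (by linear_combination (norm := module) d3 + b2)

theorem main (H : Type) [Group H] [Finite H] (hH : IsPGroup 2 H) :
    ¬Realizable (DihedralGroup 8 × H) := by
  rintro ⟨R, _, _, ⟨φ⟩⟩
  have hD : ∀ g : DihedralGroup 8, g ^ 2 ^ 3 = 1 := by decide
  have h2 : IsPGroup 2 (DihedralGroup 8 × H) := fun g => by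
    obtain ⟨j, hj⟩ := hH g.2
    refine ⟨3 + j, Prod.ext ?_ ?_⟩
    · rw [Prod.pow_fst, pow_add, pow_mul, hD, one_pow, Prod.fst_one]
    · simp [pow_add, pow_mul', hj]
  have := core R (h2.of_equiv φ.symm) (φ.symm (r 1, 1)) (φ.symm (sr 0, 1))
    (by rw [← map_pow, φ.symm.map_eq_one_iff]; exact Prod.ext (hD _) (by simp))
    (by rw [← map_mul, φ.symm.map_eq_one_iff]; exact Prod.ext (by simp) (by simp))
    (by rw [← map_mul, ← map_mul, ← map_mul, φ.symm.map_eq_one_iff]
        exact Prod.ext (by simp) (by simp))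
    (fun u => by
      obtain ⟨⟨g, h⟩, rfl⟩ := φ.symm.surjective u
      simp only [← map_mul, φ.symm.injective.eq_iff, Prod.mk_mul_mk, Prod.mk.injEq, mul_one,
        one_mul, and_true]
      revert g
      decide)
  rw [← map_pow, φ.symm.map_eq_one_iff] at this
  exact (by decide : (r 1 : DihedralGroup 8) ^ 4 ≠ 1) (congrArg Prod.fst this)

theorem result : IsPGroup 2 (DihedralGroup 8) ∧ (∃ a b : DihedralGroup 8, a * b ≠ b * a) ∧
    ¬Realizable (DihedralGroup 8) ∧ ∀ (H : Type) [Group H] [Finite H], IsPGroup 2 H →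
      ¬Realizable (DihedralGroup 8 × H) :=
  ⟨fun g => ⟨3, by revert g; decide⟩, by decide, fun ⟨R, i, j, ⟨φ⟩⟩ =>
    main Unit (fun _ => ⟨0, rfl⟩) ⟨R, i, j, ⟨φ.trans MulEquiv.prodUnique.symm⟩⟩, main⟩

end Pool.Agent.Results.MP_c51eea_al.No
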